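import Pool.Agent.helper58.DC.Spec4

/-!
# Project dz, module PD: positive defect in both versions
-/

set_option autoImplicit false

open Pool.Agent Pool.Agent.helper58.DC

namespace Pool.Agent.helper97.DZ

theorem PD_omega (hIRF : DD.IRF_stmt) {G : Type} [Group G] [Finite G] {χ : G → ℂ}
    (hχ : χ ∈ helper49.Blk.Irr G) (g : G) : omega χ g = helper49.Blk.omega χ g := by
  have hcl := ((hIRF G).2 χ hχ).2
  unfold omega helper49.Blk.omega
  congr 1
  have hf : (conjugatesOf g).Finite := Set.toFinite _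
  rw [finsum_mem_eq_finite_toFinset_sum _ hf]
  have h1 : ∀ x ∈ hf.toFinset, χ x = χ g := by
    intro x hx
    rw [Set.Finite.mem_toFinset] at hx
    obtain ⟨c, hc⟩ := isConj_iff.mp hx
    rw [← hc]
    exact hcl g c
  rw [Finset.sum_congr rfl h1, Finset.sum_const, nsmul_eq_mul]
  congr 2
  rw [← Set.ncard_eq_toFinset_card _ hf]
  rfl

theorem PD (hIRF : DD.IRF_stmt) : PD_stmt := by
  intro G _ _ p M χ hχ
  have hcard : Nat.card (⊤ : Subgroup G) = Nat.card G := Subgroup.card_top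
  constructor
  · rintro ⟨ψ, ⟨hψ, hB⟩, d, hd, hlt⟩
    refine ⟨ψ, hψ, fun g => ?_, (padicValNat p (Nat.card G) : ℤ) - padicValNat p d, by omega, d, hd,
      by rw [hcard]⟩
    obtain ⟨a, ha, e⟩ := hB g
    refine ⟨-a, neg_mem ha, ?_⟩
    rw [PD_omega hIRF hψ, PD_omega hIRF hχ, ← neg_sub, e]
    simp
  · rintro ⟨ψ, hψ, hB, d, hd, n, hn, e⟩
    rw [hcard] at e
    refine ⟨ψ, ⟨hψ, fun g => ?_⟩, n, hn, by omega⟩
    obtain ⟨a, ha, e⟩ := hB g
    refine ⟨-a, neg_mem ha, ?_⟩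
    rw [PD_omega hIRF hψ, PD_omega hIRF hχ] at e
    rw [← neg_sub, e]
    simp

end Pool.Agent.helper97.DZ
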